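import Pool.Agent.H12.UCR.Stmts4

/-! # Row LPT of the board `ucr` -/

set_option autoImplicit false

open MeasureTheory Filter Topology

namespace Pool.UCR

theorem lpt_av (h : CTFS) (p q k N : ℕ) : Continuous (fun μ : PP p => Av q k N (fc μ)) := by
  unfold Av
  exact continuous_const.mul (continuous_finsetSum _ fun n _ => h p (k * q ^ n))

theorem lpt_thm (hCPT : CPTS) (hCTF : CTFS) (hDN2 : DN2S) : LPTS := by
  intro p q hp hq hMI
  have : BaireSpace (PP p) := (hCPT p).2.2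
  set U : ℕ × ℕ → Set (PP p) := fun z => {μ : PP p | ∃ N : ℕ, z.2 ≤ N ∧
    ∀ k : ℕ, 1 ≤ k → k ≤ z.1 → ‖Av q k N (fc μ)‖ < 1 / ((z.1 : ℝ) + 1)} with hUdef
  have hUo : ∀ z, IsOpen (U z) := by
    intro z
    have h1 : U z = ⋃ N : ℕ, ⋃ _ : z.2 ≤ N, ⋂ k ∈ Finset.Icc 1 z.1,
        {μ : PP p | ‖Av q k N (fc μ)‖ < 1 / ((z.1 : ℝ) + 1)} := by
      ext μ
      simp only [hUdef, Set.mem_ofPred_eq, Set.mem_iUnion, Set.mem_iInter, Finset.mem_Icc,
        exists_prop]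
      constructor
      · rintro ⟨N, hN, h⟩
        exact ⟨N, hN, fun k hk => h k hk.1 hk.2⟩
      · rintro ⟨N, hN, h⟩
        exact ⟨N, hN, fun k hk1 hk2 => h k ⟨hk1, hk2⟩⟩
    rw [h1]
    refine isOpen_iUnion fun N => isOpen_iUnion fun _ => ?_
    refine isOpen_biInter_finset ?_
    intro k _
    exact isOpen_lt (lpt_av hCTF p q k N).norm continuous_const
  have hUd : ∀ z, Dense (U z) := by
    intro z
    rw [dense_iff_inter_open]
    intro W hWo hWn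
    obtain ⟨ν, hνW, hν⟩ := hDN2 p q hp hq hMI W hWo hWn
    refine ⟨ν, hνW, ?_⟩
    have hpos : (0 : ℝ) < 1 / ((z.1 : ℝ) + 1) := by positivity
    have h1 : ∀ᶠ N in atTop, ∀ k ∈ Finset.Icc 1 z.1,
        ‖Av q k N (fc ν)‖ < 1 / ((z.1 : ℝ) + 1) := by
      rw [Filter.eventually_all_finset]
      intro k hk
      have h2 := (hν k (Finset.mem_Icc.1 hk).1).norm
      rw [norm_zero] at h2
      exact h2.eventually (gt_mem_nhds hpos)
    obtain ⟨N, hN1, hN2⟩ := (h1.and (eventually_ge_atTop z.2)).exists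
    exact ⟨N, hN2, fun k hk1 hk2 => hN1 k (Finset.mem_Icc.2 ⟨hk1, hk2⟩)⟩
  refine ⟨⋂ z : ℕ × ℕ, U z, IsGδ.iInter_of_isOpen hUo, dense_iInter_of_isOpen hUo hUd, ?_⟩
  intro μ hμ K M
  exact Set.mem_iInter.mp hμ (K, M)

end Pool.UCR
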